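import Mathlib
import Pool.Agent.Y700.Defs

/-!
# Minimality of the equation of the twists of `X_0(14)`
-/

set_option autoImplicit false

namespace Pool.Agent.Y814.BSD14

open Pool.Agent.Y700

open Pool.Agent.W97.MT (IsGloballyMinimal)

theorem WM_k (k : ℤ) : WM (4 * k + 1) =
    ⟨1, k, 1, 72 * k ^ 2 + 36 * k + 4, -(368 * k ^ 3 + 276 * k ^ 2 + 69 * k + 6)⟩ := by
  have h1 : (4 * k + 1 - 1) / 4 = k := by omega
  have h2 : (9 * (4 * k + 1) ^ 2 - 1) / 2 = 72 * k ^ 2 + 36 * k + 4 := by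
    rw [show 9 * (4 * k + 1) ^ 2 - 1 = 2 * (72 * k ^ 2 + 36 * k + 4) by ring]
    exact Int.mul_ediv_cancel_left _ (by norm_num)
  have h3 : (23 * (4 * k + 1) ^ 3 + 1) / 4 = 368 * k ^ 3 + 276 * k ^ 2 + 69 * k + 6 := by
    rw [show 23 * (4 * k + 1) ^ 3 + 1 = 4 * (368 * k ^ 3 + 276 * k ^ 2 + 69 * k + 6) by ring]
    exact Int.mul_ediv_cancel_left _ (by norm_num)
  unfold WM
  rw [h1, h2, h3]

theorem WM_Δ (k : ℤ) : (WM (4 * k + 1)).Δ = -(2 ^ 6 * 7 ^ 3) * (4 * k + 1) ^ 6 := by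
  rw [WM_k]
  simp only [WeierstrassCurve.Δ, WeierstrassCurve.b₂, WeierstrassCurve.b₄, WeierstrassCurve.b₆,
    WeierstrassCurve.b₈]
  ring

theorem sqf14 {M : ℤ} (hM : M % 4 = 1) (hs : Squarefree M) (h7 : ¬ (7 : ℤ) ∣ M) :
    Squarefree (14 * M) := by
  have c2 : IsCoprime (2 : ℤ) M := by
    refine (Prime.coprime_iff_not_dvd Int.prime_two).2 ?_
    omega
  have c7 : IsCoprime (7 : ℤ) M := by
    refine (Prime.coprime_iff_not_dvd ?_).2 h7
    exact_mod_cast Nat.prime_iff_prime_int.1 (by norm_num : Nat.Prime 7)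
  have c14 : IsCoprime (14 : ℤ) M := by
    have := c2.mul_left c7
    norm_num at this
    exact this
  refine squarefree_mul_iff.2 ⟨c14.isRelPrime, ?_, hs⟩
  have : Squarefree (14 : ℕ) := by
    rw [Nat.squarefree_iff_nodup_primeFactorsList (by norm_num)]
    simp
  exact_mod_cast Int.squarefree_natCast.2 this

theorem min : S_MIN := by
  intro M hM hs h7
  obtain ⟨k, rfl⟩ : ∃ k, M = 4 * k + 1 := ⟨M / 4, by omega⟩
  have hΔ := WM_Δ k
  have hM0 : (4 * k + 1 : ℤ) ≠ 0 := by omega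
  refine ⟨⟨?_, ?_⟩, hΔ, ?_⟩
  · rw [hΔ]
    exact mul_ne_zero (by norm_num) (pow_ne_zero _ hM0)
  · intro W' C h
    have h1 := congrArg WeierstrassCurve.Δ h
    rw [WeierstrassCurve.variableChange_Δ, WeierstrassCurve.map_Δ, WeierstrassCurve.map_Δ] at h1
    simp only [eq_intCast] at h1
    obtain ⟨q, hq⟩ : ∃ q : ℚ, q = ((C.u⁻¹ : ℚˣ) : ℚ) := ⟨_, rfl⟩
    rw [← hq] at h1
    have hq0 : q ≠ 0 := by rw [hq]; exact Units.ne_zero _
    have h2 : (q.num : ℚ) ^ 12 * ((WM (4 * k + 1)).Δ : ℚ) = (W'.Δ : ℚ) * (q.den : ℚ) ^ 12 := by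
      have hd : (q.den : ℚ) ≠ 0 := by exact_mod_cast q.den_ne_zero
      rw [← h1]
      have hnd : q * q.den = q.num := Rat.mul_den_eq_num q
      rw [← hnd]
      ring
    have h3 : q.num ^ 12 * (WM (4 * k + 1)).Δ = W'.Δ * (q.den : ℤ) ^ 12 := by exact_mod_cast h2
    have hcop : IsCoprime ((q.den : ℤ) ^ 12) (q.num ^ 12) := by
      refine IsCoprime.pow ?_
      rw [Int.isCoprime_iff_gcd_eq_one, Int.gcd_comm]
      exact q.reduced
    have h4 : (q.den : ℤ) ^ 12 ∣ (WM (4 * k + 1)).Δ :=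
      hcop.dvd_of_dvd_mul_left ⟨W'.Δ, by rw [h3]; ring⟩
    have h5 : ((q.den : ℤ) ^ 2) ^ 6 ∣ (14 * (4 * k + 1)) ^ 6 := by
      rw [← pow_mul]
      refine h4.trans ?_
      rw [hΔ]
      exact ⟨-(7 ^ 3), by ring⟩
    have h6 : (q.den : ℤ) ^ 2 ∣ 14 * (4 * k + 1) := (Int.pow_dvd_pow_iff (by norm_num)).1 h5
    rw [pow_two] at h6
    have h7 := sqf14 hM hs h7 _ h6
    have h8 : q.den = 1 := by
      rcases Int.isUnit_iff.1 h7 with h | h
      · exact_mod_cast h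
      · omega
    rw [h8] at h3
    have h9 : W'.Δ = q.num ^ 12 * (WM (4 * k + 1)).Δ := by rw [h3]; simp
    rw [h9, abs_mul]
    have h10 : 1 ≤ |q.num ^ 12| := by
      apply Int.one_le_abs
      exact pow_ne_zero _ (Rat.num_ne_zero.2 hq0)
    nlinarith [abs_nonneg (WM (4 * k + 1)).Δ]
  · refine ⟨⟨⟨1 / 2, 2, by norm_num, by norm_num⟩, (4 * k + 1 : ℤ), -1 / 2,
      -(((4 * k + 1 : ℤ) : ℚ) + 1) / 2⟩, ?_⟩
    rw [WM_k, WeierstrassCurve.variableChange_def]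
    ext
    · simp [WeierstrassCurve.map]; norm_num
    · simp [WeierstrassCurve.map]; ring
    · simp [WeierstrassCurve.map]; ring
    · simp [WeierstrassCurve.map]; ring
    · simp [WeierstrassCurve.map]; ring

end Pool.Agent.Y814.BSD14
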