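import Pool.Agent.Y814.BSD14.Sel2
import Pool.Agent.Y814.BSD14.Min

/-!
# Job 507: `S_SEL1`, `S_SEL2`, `S_MIN`
-/

set_option autoImplicit false

namespace Pool.Agent.Y814.BSD14

theorem t_SEL1 : Pool.Agent.Y700.S_SEL1 := sel1

theorem t_SEL2 : Pool.Agent.Y700.S_SEL2 := sel2

theorem t_MIN : Pool.Agent.Y700.S_MIN := min

end Pool.Agent.Y814.BSD14
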